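import Mathlib

/-!
# Player II can win the Ulam game and lose the game `G*`

Let `μ` be a measurable cardinal with an inaccessible cardinal above it, and let `κ` be the least
one.  Then Player II has a winning strategy in the Ulam game of length `γ` on `κ` for every `γ < μ`,
but none in the game `G*_γ` on `κ`, for any `γ`.
-/

set_option autoImplicit false

namespace Pool.Agent.Results.MP_0eb1a9_lc.UlamNotWelch

open Cardinal Set

/-! ### The games -/

section Defs

variable {K : Type}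

/-- `𝒜` is a `κ`-complete subalgebra of `P(K)`. -/
structure IsAlgebra (κ : Cardinal.{0}) (𝒜 : Set (Set K)) : Prop where
  /-- closed under complements -/
  compl : ∀ A ∈ 𝒜, Aᶜ ∈ 𝒜
  /-- closed under intersections of fewer than `κ` members -/
  inter : ∀ S ⊆ 𝒜, #S < κ → ⋂₀ S ∈ 𝒜

/-- `U` is a uniform `κ`-complete ultrafilter on the algebra `𝒜`. -/
structure IsUltra (κ : Cardinal.{0}) (𝒜 U : Set (Set K)) : Prop where
  /-- `U` consists of members of `𝒜` -/
  subset : U ⊆ 𝒜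
  /-- closed upwards -/
  mono : ∀ A ∈ U, ∀ B ∈ 𝒜, A ⊆ B → B ∈ U
  /-- closed under intersections of fewer than `κ` members -/
  inter : ∀ S ⊆ U, #S < κ → ⋂₀ S ∈ U
  /-- it contains every member of `𝒜` or its complement -/
  ultra : ∀ A ∈ 𝒜, A ∈ U ∨ Aᶜ ∈ U
  /-- all members have cardinality `κ`; in particular the empty set is not a member -/
  uniform : ∀ A ∈ U, #A = κ

/-- the first `α + 1` moves of a sequence of moves -/
noncomputable def upTo {M : Type} (e : M) (m : Ordinal.{0} → M) (α : Ordinal.{0}) : Ordinal.{0} → M :=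
  open Classical in fun β => if β ≤ α then m β else e

/-- A strategy for Player II gives her move at stage `α`, as a function of the moves of Player I
at the stages up to `α`. -/
def Strategy (M N : Type) : Type 1 := Ordinal.{0} → (Ordinal.{0} → M) → N

/-- the moves of Player II when she follows the strategy `σ` and Player I plays `m`;
`e` is only used as a dummy value for the future moves of Player I -/
noncomputable def answers {M N : Type} (e : M) (σ : Strategy M N) (m : Ordinal.{0} → M) (α : Ordinal.{0}) : N :=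
  σ α (upTo e m α)

/-- The move `𝒜 α` of Player I in the Welch game at stage `α` is legal: it is a `κ`-complete
subalgebra of cardinality `κ` which contains the former moves and all singletons. -/
def WelchLegalI (κ : Cardinal.{0}) (𝒜 : Ordinal.{0} → Set (Set K)) (α : Ordinal.{0}) : Prop :=
  IsAlgebra κ (𝒜 α) ∧ #(𝒜 α) = κ ∧ (∀ β < α, 𝒜 β ⊆ 𝒜 α) ∧ ∀ x : K, {x} ∈ 𝒜 α

/-- The move `U α` of Player II in the Welch game at stage `α` is legal. -/
def WelchLegalII (κ : Cardinal.{0}) (𝒜 U : Ordinal.{0} → Set (Set K)) (α : Ordinal.{0}) : Prop :=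
  IsUltra κ (𝒜 α) (U α) ∧ ∀ β < α, U β ⊆ U α

/-- The `κ`-complete subalgebra generated by `𝒢`. -/
def generated (κ : Cardinal.{0}) (𝒢 : Set (Set K)) : Set (Set K) :=
  {A | ∀ 𝒜 : Set (Set K), IsAlgebra κ 𝒜 → 𝒢 ⊆ 𝒜 → A ∈ 𝒜}

/-- Player II has a winning strategy in the game `G*_γ` on `K`: her answers are legal as long as
the moves of Player I are, and in a play of length `γ` the union of her moves extends to a uniform
`κ`-complete ultrafilter on the `κ`-complete algebra generated by the moves of Player I. -/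
def IIWinsStar (κ : Cardinal.{0}) (K : Type) (γ : Ordinal.{0}) : Prop :=
  ∃ σ : Strategy (Set (Set K)) (Set (Set K)), ∀ 𝒜 : Ordinal.{0} → Set (Set K),
    (∀ α < γ, (∀ β ≤ α, WelchLegalI κ 𝒜 β) → WelchLegalII κ 𝒜 (answers ∅ σ 𝒜) α) ∧
    ((∀ α < γ, WelchLegalI κ 𝒜 α) → ∃ W : Set (Set K),
      IsUltra κ (generated κ (⋃ α < γ, 𝒜 α)) W ∧ (⋃ α < γ, answers ∅ σ 𝒜 α) ⊆ W)

/-- The chosen piece: Player I plays a pair of sets, and Player II chooses one of them. -/
def piece (A : Ordinal.{0} → Set K × Set K) (b : Ordinal.{0} → Bool) (α : Ordinal.{0}) : Set K :=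
  if b α then (A α).1 else (A α).2

/-- Player II has a winning strategy in the Ulam game of length `γ` on `K`: if Player I plays at
each stage `α < γ` a partition of the intersection of the pieces chosen before (of `K` if
`α = 0`), then the intersection of all chosen pieces has at least two elements. -/
def IIWinsUlam (K : Type) (γ : Ordinal.{0}) : Prop :=
  ∃ σ : Strategy (Set K × Set K) Bool, ∀ A : Ordinal.{0} → Set K × Set K,
    (∀ α < γ, (A α).1 ∪ (A α).2 = ⋂ β < α, piece A (answers (∅, ∅) σ A) β ∧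
      Disjoint (A α).1 (A α).2) →
    2 ≤ #(⋂ α < γ, piece A (answers (∅, ∅) σ A) α : Set K)

/-- `μ` is a measurable cardinal: it is uncountable and carries a non-principal `μ`-complete
ultrafilter. -/
def IsMeasurable (μ : Cardinal.{0}) : Prop :=
  ℵ₀ < μ ∧ ∃ U : Ultrafilter μ.ord.ToType, (∀ x, {x} ∉ U) ∧
    ∀ S : Set (Set μ.ord.ToType), #S < μ → (∀ s ∈ S, s ∈ U) → ⋂₀ S ∈ U

end Defs

/-! ### The Ulam game -/

section Ulam

variable {K : Type}

theorem ulam {μ : Cardinal.{0}} (hμ : IsMeasurable μ) (hK : μ ≤ #K) {γ : Ordinal.{0}}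
    (hγ : γ < μ.ord) : IIWinsUlam K γ := by
  classical
  obtain ⟨hμ0, U, hU1, hU2⟩ := hμ
  obtain ⟨j⟩ : Nonempty (μ.ord.ToType ↪ K) := by
    rw [← Cardinal.le_def, Cardinal.mk_ord_toType]
    exact hK
  -- completeness of the image measure
  have hcomp : ∀ (α : Ordinal.{0}) (B : Ordinal.{0} → Set K), α < μ.ord → (∀ β < α, j ⁻¹' B β ∈ U) →
      j ⁻¹' (⋂ β < α, B β) ∈ U := by
    intro α B hα hB
    have h1 : ⋂₀ ((fun β => j ⁻¹' B β) '' Iio α) ∈ U := by
      refine hU2 _ ?_ ?_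
      · have h2 : Cardinal.lift.{1} #((fun β => j ⁻¹' B β) '' Iio α) ≤ Cardinal.lift.{0} #(Iio α) :=
          Cardinal.mk_image_le_lift
        rw [Cardinal.mk_Iio_ordinal, Cardinal.lift_lift, Cardinal.lift_le] at h2
        exact h2.trans_lt (Cardinal.lt_ord.1 hα)
      · rintro _ ⟨β, hβ, rfl⟩
        exact hB β hβ
    refine Filter.mem_of_superset h1 fun x hx => ?_
    simp only [mem_preimage, mem_iInter]
    intro β hβ
    exact hx _ ⟨β, hβ, rfl⟩
  refine ⟨fun α A => decide (j ⁻¹' (A α).1 ∈ U), fun A hA => ?_⟩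
  set b := answers (∅, ∅) (fun α A => decide (j ⁻¹' (A α).1 ∈ U)) A with hb
  have hbα : ∀ α, b α = decide (j ⁻¹' (A α).1 ∈ U) := by
    intro α
    simp only [hb, answers, upTo, le_refl, if_true]
  have key : ∀ α < γ, j ⁻¹' piece A b α ∈ U := by
    intro α
    induction α using WellFoundedLT.induction with
    | ind α ih =>
      intro hα
      have h1 : j ⁻¹' (⋂ β < α, piece A b β) ∈ U :=
        hcomp α _ (hα.trans hγ) fun β hβ => ih β hβ (hβ.trans hα)
      rw [← (hA α hα).1, preimage_union, Ultrafilter.union_mem_iff] at h1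
      unfold piece
      rw [hbα]
      by_cases h : j ⁻¹' (A α).1 ∈ U
      · simp [h]
      · simp only [h, decide_false, Bool.false_eq_true, if_false]
        exact h1.resolve_left h
  have h1 := hcomp γ _ hγ key
  by_contra hlt
  rw [not_le] at hlt
  obtain ⟨x, hx⟩ := U.nonempty_of_mem h1
  refine hU1 x (Filter.mem_of_superset h1 fun y hy => ?_)
  by_contra hne
  rw [mem_singleton_iff] at hne
  have h2 : (2 : Cardinal.{0}) ≤ #(⋂ α < γ, piece A b α : Set K) := by
    rw [Cardinal.two_le_iff]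
    refine ⟨⟨j x, hx⟩, ⟨j y, hy⟩, fun h => hne (j.injective (Subtype.ext_iff.1 h)).symm⟩
  exact absurd hlt (not_lt.2 h2)

end Ulam

/-! ### The algebra -/

section Algebra

variable {κ : Cardinal.{0}}

theorem mk_Iio (x : κ.ord.ToType) : #(Iio x) < κ := by simpa using Cardinal.mk_Iio_lt x

/-- the sets which are saturated for the first `β` generators -/
def Sat (g : κ.ord.ToType → Set κ.ord.ToType) : Set (Set κ.ord.ToType) :=
  {A | ∃ β, ∀ x y, (∀ ξ < β, (x ∈ g ξ ↔ y ∈ g ξ)) → (x ∈ A ↔ y ∈ A)}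

theorem bounded (hκ : κ.IsInaccessible) {ι : Type} (hι : #ι < κ) (f : ι → κ.ord.ToType) :
    ∃ b, ∀ i, f i < b := by
  by_contra hcon
  push Not at hcon
  have hcof : IsCofinal (range f) := fun b => by
    obtain ⟨i, hi⟩ := hcon b
    exact ⟨f i, ⟨i, rfl⟩, hi⟩
  have h1 := Order.cof_le hcof
  rw [Ordinal.cof_toType] at h1
  exact absurd (hκ.le_cof_ord.trans (h1.trans Cardinal.mk_range_le)) (not_le.2 hι)

theorem sat_isAlgebra (hκ : κ.IsInaccessible) (g : κ.ord.ToType → Set κ.ord.ToType) :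
    IsAlgebra κ (Sat g) := by
  classical
  constructor
  · rintro A ⟨β, hβ⟩
    exact ⟨β, fun x y h => not_congr (hβ x y h)⟩
  · intro S hS hcard
    have h : ∀ A : S, ∃ β, ∀ x y, (∀ ξ < β, (x ∈ g ξ ↔ y ∈ g ξ)) → (x ∈ A.1 ↔ y ∈ A.1) :=
      fun A => hS A.2
    choose β hβ using h
    obtain ⟨b, hb⟩ := bounded hκ hcard β
    refine ⟨b, fun x y h => ?_⟩
    simp only [mem_sInter]
    refine forall₂_congr fun A hA => ?_
    exact hβ ⟨A, hA⟩ x y fun ξ hξ => h ξ (hξ.trans (hb _))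

theorem mem_sat (hκ : κ.IsInaccessible) (g : κ.ord.ToType → Set κ.ord.ToType) (ξ : κ.ord.ToType) :
    g ξ ∈ Sat g := by
  obtain ⟨b, hb⟩ := bounded hκ (ι := Unit) (by
    rw [Cardinal.mk_unit]
    exact Cardinal.one_lt_aleph0.trans hκ.aleph0_lt) fun _ => ξ
  exact ⟨b, fun x y h => h ξ (hb ())⟩

theorem card_sat (hκ : κ.IsInaccessible) (g : κ.ord.ToType → Set κ.ord.ToType) :
    #(Sat g) ≤ κ := by
  classical
  have h1 : Sat g ⊆ ⋃ β, {A | ∀ x y, (∀ ξ < β, (x ∈ g ξ ↔ y ∈ g ξ)) → (x ∈ A ↔ y ∈ A)} := by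
    rintro A ⟨β, hβ⟩
    exact mem_iUnion.2 ⟨β, hβ⟩
  refine (Cardinal.mk_le_mk_of_subset h1).trans ?_
  refine (Cardinal.mk_iUnion_le_sum_mk).trans ?_
  have h2 : ∀ β : κ.ord.ToType,
      #{A : Set κ.ord.ToType | ∀ x y, (∀ ξ < β, (x ∈ g ξ ↔ y ∈ g ξ)) → (x ∈ A ↔ y ∈ A)} ≤ κ := by
    intro β
    have h3 : #(Set (Set (Iio β))) ≤ κ := by
      rw [Cardinal.mk_set, Cardinal.mk_set]
      have h4 : #(Iio β) < κ := mk_Iio β
      exact (hκ.isStrongLimit.isStrongPrelimit (hκ.isStrongLimit.isStrongPrelimit h4)).le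
    refine le_trans (Cardinal.mk_le_of_injective (f := fun A => ((fun x => ({ξ | x ∈ g ξ.1} :
      Set (Iio β))) '' A.1 : Set (Set (Iio β)))) ?_) h3
    have key : ∀ A B : Set κ.ord.ToType,
        (∀ x y, (∀ ξ < β, (x ∈ g ξ ↔ y ∈ g ξ)) → (x ∈ B ↔ y ∈ B)) →
        (fun x => ({ξ | x ∈ g ξ.1} : Set (Iio β))) '' A ⊆
          (fun x => ({ξ | x ∈ g ξ.1} : Set (Iio β))) '' B → A ⊆ B := by
      intro A B hB h x hx
      obtain ⟨y, hy, hxy⟩ := h ⟨x, hx, rfl⟩
      refine (hB y x fun ξ hξ => ?_).1 hy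
      have := Set.ext_iff.1 hxy ⟨ξ, hξ⟩
      simpa using this
    intro A B hAB
    exact Subtype.ext (subset_antisymm (key A.1 B.1 B.2 (le_of_eq hAB))
      (key B.1 A.1 A.2 (le_of_eq hAB.symm)))
  refine (Cardinal.sum_le_sum (g := fun _ => κ) _ h2).trans ?_
  rw [Cardinal.sum_const, Cardinal.lift_id, Cardinal.lift_id, Cardinal.mk_ord_toType,
    Cardinal.mul_eq_self hκ.aleph0_lt.le]

end Algebra

/-! ### The least inaccessible cardinal above `μ` -/

section Least

variable {κ : Cardinal.{0}}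

theorem exists_elem {c : Cardinal.{0}} (hc : c < κ) :
    ∃ δ : κ.ord.ToType, Ordinal.typein (α := κ.ord.ToType) (· < ·) δ = c.ord := by
  have h : c.ord < Ordinal.type (α := κ.ord.ToType) (· < ·) := by
    rw [Ordinal.type_toType]
    exact Cardinal.ord_lt_ord.2 hc
  exact ⟨Ordinal.enum (α := κ.ord.ToType) (· < ·) ⟨c.ord, h⟩, Ordinal.typein_enum _ h⟩

theorem card_Iio (α : κ.ord.ToType) : #(Iio α) = (Ordinal.typein (α := κ.ord.ToType) (· < ·) α).card := rfl

/-- non-inaccessibility of the points above `μ` -/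
theorem witness {μ : Cardinal.{0}} (hμ : ℵ₀ < μ) (hμκ : μ < κ)
    (hleast : ∀ c, μ < c → c < κ → ¬ c.IsInaccessible) :
    ∃ α₀ : κ.ord.ToType, ∀ α, α₀ < α → ∃ δ < α, ∃ h : κ.ord.ToType → κ.ord.ToType,
      (∀ i, h i < α) ∧ ((∀ ξ < α, ∃ i < δ, ξ ≤ h i) ∨ #(Iio α) ≤ 2 ^ #(Iio δ)) := by
  classical
  obtain ⟨α₀, hα₀⟩ := exists_elem hμκ
  refine ⟨α₀, fun α hα => ?_⟩
  have hle : ∀ {β γ : κ.ord.ToType}, β ≤ γ → #(Iio β) ≤ #(Iio γ) := fun h =>
    Cardinal.mk_le_mk_of_subset (Iio_subset_Iio h)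
  -- a map given by a surjection from `Iio δ` onto a cofinal set
  have hmk : ∀ (δ : κ.ord.ToType) (s : Set (Iio α)), IsCofinal s → #(Iio δ) = #s → ∃ h : κ.ord.ToType → κ.ord.ToType,
      (∀ i, h i < α) ∧ (∀ ξ < α, ∃ i < δ, ξ ≤ h i) := by
    intro δ s hs hcard
    obtain ⟨e⟩ := Cardinal.eq.1 hcard
    let h : κ.ord.ToType → κ.ord.ToType :=
      fun i => if hi : i ∈ Iio δ then (e ⟨i, hi⟩).1.1 else α₀
    have hh : ∀ (i : κ.ord.ToType) (hi : i ∈ Iio δ), h i = (e ⟨i, hi⟩).1.1 := fun i hi => dif_pos hi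
    refine ⟨h, fun i => ?_, fun ξ hξ => ?_⟩
    · by_cases hi : i ∈ Iio δ
      · rw [hh i hi]
        exact (e ⟨i, hi⟩).1.2
      · rw [show h i = α₀ from dif_neg hi]
        exact hα
    · obtain ⟨η, hη, hle'⟩ := hs ⟨ξ, hξ⟩
      obtain ⟨⟨i, hi⟩, hie⟩ := e.surjective ⟨η, hη⟩
      refine ⟨i, hi, ?_⟩
      rw [hh i hi, hie]
      exact hle'
  by_cases hcase : ∃ δ < α, #(Iio δ) = #(Iio α)
  · obtain ⟨δ, hδ, hcard⟩ := hcase
    obtain ⟨h, h1, h2⟩ := hmk δ univ (fun x => ⟨x, mem_univ x, le_rfl⟩) (by rw [hcard, Cardinal.mk_univ])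
    exact ⟨δ, hδ, h, h1, Or.inl h2⟩
  push Not at hcase
  set c := #(Iio α) with hc
  have hcκ : c < κ := mk_Iio α
  have hμc : μ < c := by
    refine lt_of_le_of_ne ?_ ?_
    · have := hle hα.le
      rw [card_Iio, hα₀, Cardinal.card_ord] at this
      exact this
    · intro h
      refine hcase α₀ hα ?_
      rw [card_Iio, hα₀, Cardinal.card_ord, h]
  -- `α` is the initial ordinal of `c`
  have hord : Ordinal.typein (α := κ.ord.ToType) (· < ·) α = c.ord := by
    refine le_antisymm ?_ ?_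
    · by_contra hlt
      rw [not_le] at hlt
      obtain ⟨δ, hδ⟩ := exists_elem hcκ
      rw [← hδ, Ordinal.typein_lt_typein] at hlt
      refine hcase δ hlt ?_
      rw [card_Iio, hδ, Cardinal.card_ord]
    · rw [hc, card_Iio]
      exact Cardinal.ord_card_le _
  have hbelow : ∀ {x : Cardinal.{0}}, x < c → ∃ δ < α, #(Iio δ) = x := by
    intro x hx
    obtain ⟨δ, hδ⟩ := exists_elem (hx.trans hcκ)
    have h2 : #(Iio δ) = x := by rw [card_Iio, hδ, Cardinal.card_ord]
    refine ⟨δ, ?_, h2⟩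
    by_contra h3
    have := hle (not_lt.1 h3)
    rw [h2] at this
    exact absurd hx (not_lt.2 this)
  have hni := hleast c hμc hcκ
  by_cases hcof : c ≤ c.ord.cof
  · have hlim : ¬ IsStrongPrelimit c := fun h => hni ⟨hμ.trans hμc, hcof, h⟩
    simp only [IsStrongPrelimit, not_forall, not_lt] at hlim
    obtain ⟨x, hx, hx'⟩ := hlim
    obtain ⟨δ, hδ, hδx⟩ := hbelow hx
    exact ⟨δ, hδ, fun _ => α₀, fun _ => hα, Or.inr (by rw [hδx]; exact hx')⟩
  · rw [not_le] at hcof
    have h3 : Order.cof (Iio α) = c.ord.cof := by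
      rw [← hord]
      exact Order.cof_Iio α
    obtain ⟨s, hs, hs'⟩ := Order.exists_cof_eq (Iio α)
    rw [h3] at hs'
    obtain ⟨δ, hδ, hδx⟩ := hbelow hcof
    obtain ⟨h, h1, h2⟩ := hmk δ s hs (by rw [hδx, hs'])
    exact ⟨δ, hδ, h, h1, Or.inl h2⟩

/-- `κ`-completeness for indexed families -/
theorem IsUltra.iInter {K : Type} {𝒜 U : Set (Set K)} (hU : IsUltra κ 𝒜 U) {ι : Type} (hι : #ι < κ)
    (B : ι → Set K) (hB : ∀ i, B i ∈ U) : (⋂ i, B i) ∈ U := by
  rw [← sInter_range]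
  refine hU.inter _ ?_ (Cardinal.mk_range_le.trans_lt hι)
  rintro _ ⟨i, rfl⟩
  exact hB i

theorem IsUltra.inter₂ {K : Type} {𝒜 U : Set (Set K)} (hU : IsUltra κ 𝒜 U) (hκ : ℵ₀ ≤ κ)
    {A B : Set K} (hA : A ∈ U) (hB : B ∈ U) : A ∩ B ∈ U := by
  have h := hU.iInter (ι := Bool) ((Cardinal.lt_aleph0_of_finite Bool).trans_le hκ)
    (fun b => if b then A else B) (fun b => by cases b <;> simpa)
  have h2 : (⋂ b : Bool, if b then A else B) = A ∩ B := by
    ext x
    simp only [mem_iInter, Bool.forall_bool, mem_inter_iff]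
    simp [and_comm]
  rwa [h2] at h

theorem IsUltra.nonempty {K : Type} {𝒜 U : Set (Set K)} (hU : IsUltra κ 𝒜 U) (hκ : κ ≠ 0)
    {A : Set K} (hA : A ∈ U) : A.Nonempty := by
  rw [← Set.nonempty_coe_sort, ← Cardinal.mk_ne_zero_iff, hU.uniform A hA]
  exact hκ

theorem no_ultra (hκ : κ.IsInaccessible) {α₀ : κ.ord.ToType}
    (hw : ∀ α, α₀ < α → ∃ δ < α, ∃ h : κ.ord.ToType → κ.ord.ToType,
      (∀ i, h i < α) ∧ ((∀ ξ < α, ∃ i < δ, ξ ≤ h i) ∨ #(Iio α) ≤ 2 ^ #(Iio δ))) :
    ∃ 𝒜 : Set (Set κ.ord.ToType), IsAlgebra κ 𝒜 ∧ #𝒜 = κ ∧ (∀ x, {x} ∈ 𝒜) ∧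
      ∀ U, ¬ IsUltra κ 𝒜 U := by
  classical
  have hne0 : Nonempty κ.ord.ToType := ⟨α₀⟩
  choose! δ hδ h hh1 hh2 using hw
  -- the operations
  let op : Option κ.ord.ToType → κ.ord.ToType → κ.ord.ToType :=
    fun i α => match i with
      | none => δ α
      | some i => h α i
  let F : List (Option κ.ord.ToType) → κ.ord.ToType → κ.ord.ToType :=
    fun l x => l.foldr op x
  have hop : ∀ i α, α₀ < α → op i α < α := by
    intro i α hα
    cases i with
    | none => exact hδ α hα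
    | some i => exact hh1 α hα i
  -- the generators
  let G : Type := (List (Option κ.ord.ToType) × List (Option κ.ord.ToType)) ⊕
    ((List (Option κ.ord.ToType) × κ.ord.ToType) ⊕ κ.ord.ToType)
  let gs : G → Set κ.ord.ToType := fun i => match i with
    | Sum.inl (l, l') => {x | F l x < F l' x}
    | Sum.inr (Sum.inl (l, β)) => {x | F l x ≤ β}
    | Sum.inr (Sum.inr y) => {y}
  have hκ0 := hκ.aleph0_lt.le
  have hK : #κ.ord.ToType = κ := Cardinal.mk_ord_toType κ
  have hinf : Infinite κ.ord.ToType := by rw [Cardinal.infinite_iff, hK]; exact hκ0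
  have hG : #G = κ := by
    have h1 : #(List (Option κ.ord.ToType)) = κ := by
      rw [Cardinal.mk_list_eq_mk, Cardinal.mk_option, hK, Cardinal.add_one_eq hκ0]
    simp only [G, Cardinal.mk_sum, Cardinal.mk_prod, Cardinal.lift_id, h1, hK,
      Cardinal.mul_eq_self hκ0, Cardinal.add_eq_self hκ0]
  obtain ⟨e⟩ : Nonempty (κ.ord.ToType ≃ G) := by
    rw [← Cardinal.eq, hG, hK]
  let g : κ.ord.ToType → Set κ.ord.ToType := fun ξ => gs (e ξ)
  have hgen : ∀ i, gs i ∈ Sat g := by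
    intro i
    have := mem_sat hκ g (e.symm i)
    simpa [g] using this
  have hsing : ∀ x : κ.ord.ToType, {x} ∈ Sat g := fun x => hgen (Sum.inr (Sum.inr x))
  refine ⟨Sat g, sat_isAlgebra hκ g, le_antisymm (card_sat hκ g) ?_, hsing, fun U hU => ?_⟩
  · conv_lhs => rw [← hK]
    exact Cardinal.mk_le_of_injective (f := fun x => (⟨{x}, hsing x⟩ : Sat g))
      fun x y hxy => singleton_injective (Subtype.ext_iff.1 hxy)
  have halg := sat_isAlgebra hκ g
  have hlt : ∀ l l', {x | F l x < F l' x} ∈ Sat g := fun l l' => hgen (Sum.inl (l, l'))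
  have hle : ∀ l β, {x | F l x ≤ β} ∈ Sat g := fun l β => hgen (Sum.inr (Sum.inl (l, β)))
  have hcompl : ∀ l β, {x | F l x ≤ β}ᶜ = {x | β < F l x} := by
    intro l β; ext x; simp
  have hgt : ∀ l β, {x | β < F l x} ∈ Sat g := fun l β => by
    rw [← hcompl]; exact halg.compl _ (hle l β)
  have hne : κ ≠ 0 := (Cardinal.aleph0_pos.trans_le hκ0).ne'
  have hmax : ∀ x y : κ.ord.ToType, ∃ z, x < z ∧ y < z := by
    intro x y
    obtain ⟨b, hb⟩ := bounded hκ (ι := Bool) (by
      exact (Cardinal.lt_aleph0_of_finite Bool).trans hκ.aleph0_lt) (fun b => if b then x else y)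
    exact ⟨b, by simpa using hb true, by simpa using hb false⟩
  -- the unbounded functions
  let FF : Set (List (Option κ.ord.ToType)) := {l | ∀ β, {x | β < F l x} ∈ U}
  have hnil : [] ∈ FF := by
    intro β
    rcases hU.ultra _ (hle [] β) with h1 | h1
    · exfalso
      have h2 := hU.uniform _ h1
      obtain ⟨z, hz, -⟩ := hmax β β
      have h3 : #{x : κ.ord.ToType | F [] x ≤ β} ≤ #(Iio z) :=
        Cardinal.mk_le_mk_of_subset fun x (hx : x ≤ β) => lt_of_le_of_lt hx hz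
      rw [h2] at h3
      exact absurd (mk_Iio z) (not_lt.2 h3)
    · rwa [hcompl] at h1
  -- a minimal one
  obtain ⟨l, hl, hmin⟩ : ∃ l ∈ FF, ∀ l' ∈ FF, {x | F l' x < F l x} ∉ U := by
    by_contra hcon
    push Not at hcon
    choose! nx hnx1 hnx2 using hcon
    let s : ℕ → List (Option κ.ord.ToType) := fun n => nx^[n] []
    have hs : ∀ n, s n ∈ FF := by
      intro n
      induction n with
      | zero => exact hnil
      | succ n ih =>
        simp only [s, Function.iterate_succ_apply']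
        exact hnx1 _ ih
    have hs' : ∀ n, {x | F (s (n + 1)) x < F (s n) x} ∈ U := by
      intro n
      have := hnx2 (s n) (hs n)
      simpa only [s, Function.iterate_succ_apply'] using this
    have h1 := hU.iInter (ι := ℕ) (by simpa using hκ.aleph0_lt) _ hs'
    obtain ⟨x, hx⟩ := hU.nonempty hne h1
    rw [mem_iInter] at hx
    obtain ⟨n, hn⟩ := WellFounded.not_rel_apply_succ (r := fun a b : κ.ord.ToType => a < b)
      (fun n => F (s n) x)
    exact hn (hx n)
  -- the operations are bounded on it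
  have hbd : ∀ i, ∃ β, {x | op i (F l x) ≤ β} ∈ U := by
    intro i
    have h1 : i :: l ∉ FF := by
      intro hmem
      refine hmin _ hmem ?_
      exact hU.mono _ (hl α₀) _ (hlt _ _) fun x hx => hop i _ hx
    simp only [FF, mem_ofPred_eq, not_forall] at h1
    obtain ⟨β, hβ⟩ := h1
    refine ⟨β, ?_⟩
    rcases hU.ultra _ (hle (i :: l) β) with h2 | h2
    · exact h2
    · rw [hcompl] at h2
      exact absurd h2 hβ
  choose β hβ using hbd
  obtain ⟨βs, hβs⟩ := bounded hκ (mk_Iio (β none)) (fun i => β (some i.1))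
  have hpow : 2 ^ #(Iio (β none)) < κ := hκ.isStrongLimit.isStrongPrelimit (mk_Iio (β none))
  obtain ⟨γ, hγ⟩ := exists_elem (hκ.isStrongLimit.isSuccLimit.succ_lt hpow)
  obtain ⟨z, hz1, hz2⟩ := hmax γ βs
  obtain ⟨z', hz1', hz2'⟩ := hmax z α₀
  have hS := hU.inter₂ hκ0 (hU.inter₂ hκ0 (hβ none) (hl z'))
    (hU.iInter (mk_Iio (β none)) (fun i => {x | op (some i.1) (F l x) ≤ β (some i.1)})
      fun i => hβ (some i.1))
  obtain ⟨x, ⟨hx1, hx2⟩, hx3⟩ := hU.nonempty hne hS
  rw [mem_iInter] at hx3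
  have hx1' : δ (F l x) ≤ β none := hx1
  have hx2' : z' < F l x := hx2
  have hα : α₀ < F l x := hz2'.trans hx2'
  rcases hh2 (F l x) hα with h1 | h1
  · obtain ⟨i, hi, hi'⟩ := h1 βs (hz2.trans (hz1'.trans hx2'))
    have h2 : h (F l x) i ≤ β (some i) := hx3 ⟨i, hi.trans_le hx1'⟩
    exact absurd (hi'.trans h2) (not_le.2 (hβs ⟨i, hi.trans_le hx1'⟩))
  · have h2 : #(Iio (F l x)) ≤ 2 ^ #(Iio (β none)) :=
      h1.trans (Cardinal.power_le_power_left two_ne_zero
        (Cardinal.mk_le_mk_of_subset (Iio_subset_Iio hx1')))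
    have h3 : Order.succ ((2 : Cardinal.{0}) ^ #(Iio (β none))) ≤ #(Iio (F l x)) := by
      have h4 : #(Iio γ) ≤ #(Iio (F l x)) :=
        Cardinal.mk_le_mk_of_subset (Iio_subset_Iio (hz1.trans (hz1'.trans hx2')).le)
      rwa [card_Iio, hγ, Cardinal.card_ord] at h4
    exact absurd (Order.lt_succ _) (not_lt.2 (h3.trans h2))

end Least

/-- **Player II can win the Ulam game and lose the game `G*`.**  If `μ` is a measurable cardinal and
there is an inaccessible cardinal `κ' > μ`, then there is an inaccessible cardinal `κ` with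
`μ < κ ≤ κ'` such that Player II has a winning strategy in the Ulam game of length `γ` on `κ` for
every `γ < μ`, but for every limit ordinal `γ` (in fact for every `γ > 0`) she has no winning
strategy in `G*_γ` on `κ`. -/
theorem result (μ κ' : Cardinal.{0}) (hμ : IsMeasurable μ) (hκ' : κ'.IsInaccessible)
    (hμκ' : μ < κ') :
    ∃ κ : Cardinal.{0}, κ.IsInaccessible ∧ μ < κ ∧ κ ≤ κ' ∧
      (∀ γ : Ordinal.{0}, γ < μ.ord → IIWinsUlam κ.ord.ToType γ) ∧
      ∀ γ : Ordinal.{0}, 0 < γ → ¬ IIWinsStar κ κ.ord.ToType γ := by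
  classical
  -- the least inaccessible cardinal above `μ`
  let T : Set Cardinal.{0} := {c | μ < c ∧ c.IsInaccessible}
  have hT : T.Nonempty := ⟨κ', hμκ', hκ'⟩
  let κ := sInf T
  have hκT : κ ∈ T := csInf_mem hT
  have hleast : ∀ c, μ < c → c < κ → ¬ c.IsInaccessible := fun c h1 h2 h3 =>
    absurd (csInf_le' (show c ∈ T from ⟨h1, h3⟩)) (not_le.2 h2)
  refine ⟨κ, hκT.2, hκT.1, csInf_le' ⟨hμκ', hκ'⟩, fun γ hγ => ?_, fun γ hγ => ?_⟩
  · exact ulam hμ (by rw [Cardinal.mk_ord_toType]; exact hκT.1.le) hγ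
  · rintro ⟨σ, hσ⟩
    obtain ⟨α₀, hα₀⟩ := witness hμ.1 hκT.1 hleast
    obtain ⟨𝒜, h1, h2, h3, h4⟩ := no_ultra hκT.2 hα₀
    refine h4 _ ((hσ fun _ => 𝒜).1 0 hγ fun β hβ => ⟨h1, h2, fun _ _ => subset_rfl, h3⟩).1

end Pool.Agent.Results.MP_0eb1a9_lc.UlamNotWelch
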